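import Mathlib
import Pool.Agent.H95.BO.Bin

/-!
# Numbers with a given number of binary ones behave like primes

Let `S` be a finite set of primes which contains `2`. An integer `z` is *short* for a number `F` if
`z = c_1 u_1 + ⋯ + c_k u_k` with integers `|c_i| ≤ F ^ δ` and `S`-units `u_i` (up to the sign products of positive and
negative powers of primes of `S`) whose numerators and denominators are at most `F ^ C`. We say that `F` *behaves like a
prime* if every short `z` is divisible by `F` up to primes of `S`, or has a common divisor `≤ F ^ ε` with `F`. For given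
`S`, `k`, `C`, `ε > 0` and `r ≥ 2`:

1. let `τ(y) > 0` be given for all integer vectors `y = (y_1, …, y_r)`. There are `δ > 0`, `B` and `p₀` such that
   `p = 1 + 2 ^ n_1 + ⋯ + 2 ^ n_r ≥ p₀` behaves like a prime unless the exponents satisfy
   `|y_1 n_1 + ⋯ + y_r n_r| ≤ τ(y) log₂ p` for some `y ≠ 0` with `|y_i| ≤ B`;
2. for every `η > 0` there are `δ > 0` and `N₀` such that all but at most `η N ^ r` of the odd numbers `p < 2 ^ N` with
   exactly `r + 1` binary ones behave like primes, for all `N ≥ N₀` (there are about `N ^ r / r!` such numbers);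
3. if `p` behaves like a prime and divides a product of `j < 1 / ε` short integers, it divides one of them up to
   primes of `S`.

Exceptions in 1 are needed, for instance `16 ^ s + 4 ^ s + 1 = (4 ^ s + 2 ^ s + 1) (4 ^ s - 2 ^ s + 1)`. The proof: a gcd theorem
for moving polynomials in germs of `S`-units (Subspace theorem, pool library), and the irreducibility of `1 + ∑ κ_i X_i ^ N`
in at least two variables.
-/

set_option autoImplicit false

namespace Pool.Agent.Results.MP_343216_nt.BehaveLikePrimes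

/-- up to its sign, `x` is a product of powers (with positive or negative exponents) of primes
of `S` -/
def IsSUnit (S : Finset ℕ) (x : ℚ) : Prop :=
  x ≠ 0 ∧ x.num.natAbs.primeFactors ⊆ S ∧ x.den.primeFactors ⊆ S

/-- `z` is a sum of `k` products `c u`, where `c` is an integer with `|c| ≤ M` and `u` an `S`-unit
whose numerator and denominator are at most `H` (in absolute value) -/
def Short (S : Finset ℕ) (k : ℕ) (M H : ℝ) (z : ℤ) : Prop :=
  ∃ (c : Fin k → ℤ) (u : Fin k → ℚ), (∀ i, |(c i : ℝ)| ≤ M) ∧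
    (∀ i, IsSUnit S (u i) ∧ |((u i).num : ℝ)| ≤ H ∧ ((u i).den : ℝ) ≤ H) ∧
    (z : ℚ) = ∑ i, c i * u i

/-- every short `z` is divisible by `F` up to primes of `S`, or has a small common divisor
with `F` -/
def PrimeLike (S : Finset ℕ) (k : ℕ) (δ C ε : ℝ) (F : ℕ) : Prop :=
  ∀ z : ℤ, Short S k ((F : ℝ) ^ δ) ((F : ℝ) ^ C) z →
    (∃ N : ℕ, (F : ℤ) ∣ z * ((∏ p ∈ S, p : ℕ) : ℤ) ^ N) ∨ (Int.gcd z F : ℝ) ≤ (F : ℝ) ^ ε

open Classical in
/-- **Main theorem.** -/
theorem result (S : Finset ℕ) (hS : ∀ p ∈ S, p.Prime) (h2 : 2 ∈ S) (r : ℕ) (hr : 2 ≤ r) (k : ℕ) (C ε : ℝ)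
    (hC : 1 ≤ C) (hε : 0 < ε) :
    -- 1. exponents without short linear relations
    (∀ τ : (Fin r → ℤ) → ℝ, (∀ y, 0 < τ y) → ∃ δ : ℝ, 0 < δ ∧ ∃ B p₀ : ℕ,
      ∀ (p : ℕ) (n : Fin r → ℕ), p₀ ≤ p → p = 1 + ∑ i, 2 ^ n i →
        (∃ y : Fin r → ℤ, y ≠ 0 ∧ (∀ i, |y i| ≤ B) ∧ |∑ i, (y i : ℝ) * n i| ≤ τ y * Real.logb 2 p) ∨
        PrimeLike S k δ C ε p) ∧
    -- 2. almost all odd numbers with `r + 1` binary ones
    (∀ η : ℝ, 0 < η → ∃ δ : ℝ, 0 < δ ∧ ∃ N₀ : ℕ, ∀ N : ℕ, N₀ ≤ N →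
      (((Finset.range (2 ^ N)).filter fun p =>
        Odd p ∧ (Nat.digits 2 p).sum = r + 1 ∧ ¬ PrimeLike S k δ C ε p).card : ℝ) ≤ η * (N : ℝ) ^ r) ∧
    -- 3. Euclid's lemma
    (∀ (p j : ℕ) (δ : ℝ), 2 ≤ p → j * ε < 1 → PrimeLike S k δ C ε p →
      ∀ z : Fin j → ℤ, (∀ i, Short S k ((p : ℝ) ^ δ) ((p : ℝ) ^ C) (z i)) →
        (p : ℤ) ∣ ∏ i, z i → ∃ i, ∃ N : ℕ, (p : ℤ) ∣ z i * ((∏ p ∈ S, p : ℕ) : ℤ) ^ N) :=
  ⟨fun τ hτ => Pool.Agent.H95.BO.near S hS h2 r hr k C ε hC hε τ hτ,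
    fun η hη => Pool.Agent.H95.BO.density2 S hS h2 r hr k C ε hC hε η hη,
    fun p j δ hp hj h z hz hd => Pool.Agent.H95.SP.euclid_like S k j δ C ε hj p hp h z hz hd⟩

end Pool.Agent.Results.MP_343216_nt.BehaveLikePrimes
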